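import Pool.Agent.Helper73.MI.Stmts
import Pool.Agent.Helper94.SY.Cen

/-!
# Module CEM of MP_a2630c_MI: the centred translate respects mirror symmetries and half-turns
-/

open MeasureTheory Set Metric Real
open scoped RealInnerProductSpace ENNReal
open Pool.Agent.Helper16.Buoy (E cap)
open Pool.Agent.Helper73.HV (supp)
open Pool.Agent.Helper73.LR (CB vol GG aff Sol)
open Pool.Agent.Helper96.LR (cap_aff GG_aff volume_aff supp_aff cb_aff ad ad_inner vol_aff vol_pos)
open Pool.Agent.Helper65.LR (GG_add GG_min cap_int le_supp supp_greatest supp_smul)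
open Pool.Agent.Helper51.HV (hyper_null cap_subset cap_meas)
open Pool.Agent.Helper73.SY
open Pool.Agent.Helper94.SY (cap_int_lt)

namespace Pool.Agent.Helper78.MI

variable {n : ℕ} {K : Set (E n)}

theorem int_sym (σ : E n ≃ₗᵢ[ℝ] E n) (hK : σ '' K = K) (g : E n → ℝ) :
    ∫ x in K, g (σ x) = ∫ x in K, g x := by
  have h1 := σ.measurePreserving.setIntegral_image_emb
    σ.toHomeomorph.measurableEmbedding g K
  have h2 : σ '' K = K := hK
  rw [h2] at h1
  exact h1.symm

theorem GG_sym (σ : E n ≃ₗᵢ[ℝ] E n) (hσ : ∀ u x, inner ℝ (σ u) x = (inner ℝ u (σ x) : ℝ))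
    (hK : σ '' K = K) (u : E n) (τ : ℝ) : GG K (σ u) τ = GG K u τ := by
  unfold GG
  rw [← int_sym σ hK (fun x => max (inner ℝ u x - τ) 0)]
  congr 1
  funext x
  rw [hσ]

theorem supp_sym (σ : E n ≃ₗᵢ[ℝ] E n) (hσ : ∀ u x, inner ℝ (σ u) x = (inner ℝ u (σ x) : ℝ))
    (hK : σ '' K = K) (u : E n) : supp K (σ u) = supp K u := by
  unfold supp
  congr 1
  conv_rhs => rw [← hK]
  rw [image_image]
  apply image_congr
  intro x _
  rw [hσ]

/-- The centre of a solution is fixed by every symmetric linear isometry that preserves it. -/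
theorem centre_sym {d : ℝ} (hn : 1 ≤ n) (hK : CB K) (hd : 0 < d) (hdv : d < vol K)
    (hS : Sol K d) : ∃ (C : E n) (lam : ℝ), CS ((fun x => x + C) '' K) d lam ∧
      ∀ σ : E n ≃ₗᵢ[ℝ] E n, (∀ u x, inner ℝ (σ u) x = (inner ℝ u (σ x) : ℝ)) → σ '' K = K →
        σ C = C := by
  obtain ⟨c, b, hc, h⟩ := hS
  have hne : K.Nonempty := hK.int.mono interior_subset
  -- the factor is less than one
  have hlt : ∀ u : E n, ‖u‖ = 1 → c * supp K u + inner ℝ b u < supp K u := by
    intro u hu
    have hu0 : u ≠ 0 := fun h0 => by rw [h0, norm_zero] at hu; exact zero_ne_one hu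
    obtain ⟨τ, h1, h2⟩ := h u hu
    rw [GG_add hK.comp u τ hd.le h1] at h2
    have h3 := cap_int_lt hK.comp hu0 hd h1
    rw [h2] at h3
    exact lt_of_mul_lt_mul_left h3 hd.le
  have hc1 : c < 1 := by
    have : Nonempty (Fin n) := ⟨⟨0, hn⟩⟩
    obtain ⟨u, hu⟩ := exists_norm_eq (E n) zero_le_one
    have h1 := hlt u hu
    have h2 := hlt (-u) (by rw [norm_neg]; exact hu)
    rw [inner_neg_right] at h2
    obtain ⟨x, hx⟩ := hne
    have h3 := le_supp hK.comp hx u
    have h4 := le_supp hK.comp hx (-u)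
    rw [inner_neg_left] at h4
    have h5 : 0 ≤ supp K u + supp K (-u) := by linarith
    by_contra hcc
    have h6 : 1 ≤ c := not_lt.1 hcc
    nlinarith
  have hc2 : 0 < 1 - c := by linarith
  set C : E n := (-(1 - c)⁻¹) • b with hC
  have hbC : ∀ u : E n, (inner ℝ b u : ℝ) = -(1 - c) * inner ℝ u C := by
    intro u
    rw [hC, real_inner_smul_right, real_inner_comm u b]
    field_simp
  have e0 : aff (ContinuousLinearEquiv.refl ℝ (E n)) C '' K = (fun x => x + C) '' K := rfl
  have hdet : |((ContinuousLinearEquiv.refl ℝ (E n) : E n ≃L[ℝ] E n) : E n →L[ℝ] E n).det| = 1 := by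
    have h1 : (((ContinuousLinearEquiv.refl ℝ (E n) : E n ≃L[ℝ] E n) : E n →L[ℝ] E n) :
        E n →ₗ[ℝ] E n) = LinearMap.id := rfl
    unfold ContinuousLinearMap.det
    rw [h1, LinearMap.det_id, abs_one]
  have had : ∀ u : E n, ad (ContinuousLinearEquiv.refl ℝ (E n)) u = u := by
    intro u
    apply ext_inner_right ℝ
    intro x
    rw [ad_inner]
    rfl
  have hcb := cb_aff hK (ContinuousLinearEquiv.refl ℝ (E n)) C
  have hvol := vol_aff (ContinuousLinearEquiv.refl ℝ (E n)) C K
  rw [hdet, one_mul] at hvol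
  refine ⟨C, d * c, ⟨hcb, hd, ?_, mul_pos hd hc, ?_, ?_⟩, ?_⟩
  · rw [← e0, hvol]; exact hdv
  · have := mul_lt_mul_of_pos_left hc1 hd
    linarith
  · intro u hu
    have hn0 : 0 < ‖u‖ := norm_pos_iff.2 hu
    set v : E n := ‖u‖⁻¹ • u with hv
    have hvn : ‖v‖ = 1 := by
      rw [hv, norm_smul, norm_inv, norm_norm, inv_mul_cancel₀ hn0.ne']
    have hv2 : u = ‖u‖ • v := by
      rw [hv, smul_smul, mul_inv_cancel₀ hn0.ne', one_smul]
    have hv3 : ad (ContinuousLinearEquiv.refl ℝ (E n)) u = ‖u‖ • v := by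
      rw [had]; exact hv2
    obtain ⟨τ, h1, h2⟩ := h v hvn
    have c1 := cap_aff (ContinuousLinearEquiv.refl ℝ (E n)) C K u v hn0 hv3 τ
    have g1 := GG_aff (ContinuousLinearEquiv.refl ℝ (E n)) C hK.comp u v hn0 hv3 τ
    have s1 := supp_aff hK.comp hne (ContinuousLinearEquiv.refl ℝ (E n)) C u
    rw [e0] at c1 g1 s1
    rw [had] at s1
    refine ⟨‖u‖ * τ + inner ℝ u C, ?_, ?_⟩
    · rw [c1, volume_aff, h1, hdet, ENNReal.ofReal_one, one_mul]
    · have s2 : supp K u = ‖u‖ * supp K v := by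
        conv_lhs => rw [hv2]
        exact supp_smul hK.comp hne hn0.le v
      have hb1 := hbC v
      have hb2 : (inner ℝ u C : ℝ) = ‖u‖ * inner ℝ v C := by
        conv_lhs => rw [hv2]
        rw [real_inner_smul_left]
      rw [g1, s1, s2, hdet, one_mul]
      have h3 : GG K v τ = d * (c * supp K v + inner ℝ b v) - d * τ := by
        rw [← h2]; ring
      rw [h3, hb1, hb2]
      ring
  · intro σ hσ hσK
    -- the translation vector is fixed
    have key : ∀ u : E n, ‖u‖ = 1 → (inner ℝ b (σ u) : ℝ) = inner ℝ b u := by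
      intro u hu
      obtain ⟨τ, h1, h2⟩ := h u hu
      obtain ⟨τ', h1', h2'⟩ := h (σ u) (by rw [σ.norm_map]; exact hu)
      have m1 := GG_min hK.comp u τ τ' hd.le h1
      have m2 := GG_min hK.comp (σ u) τ' τ hd.le h1'
      rw [GG_sym σ hσ hσK, GG_sym σ hσ hσK] at m2
      rw [GG_sym σ hσ hσK] at h2'
      rw [supp_sym σ hσ hσK] at h2'
      have h5 : GG K u τ + d * τ = GG K u τ' + d * τ' := le_antisymm m1 m2
      rw [h2, h2'] at h5
      have h6 := mul_left_cancel₀ hd.ne' h5
      linarith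
    have key2 : ∀ u : E n, (inner ℝ b (σ u) : ℝ) = inner ℝ b u := by
      intro u
      by_cases hu : u = 0
      · subst hu
        rw [map_zero]
      · have hn0 : 0 < ‖u‖ := norm_pos_iff.2 hu
        have h1 := key (‖u‖⁻¹ • u) (by rw [norm_smul, norm_inv, norm_norm, inv_mul_cancel₀ hn0.ne'])
        rw [map_smul, real_inner_smul_right, real_inner_smul_right] at h1
        exact mul_left_cancel₀ (inv_ne_zero hn0.ne') h1
    have h3 : σ b = b := by
      apply ext_inner_right ℝ
      intro x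
      rw [hσ]
      exact key2 x
    rw [hC, map_smul, h3]

theorem sg_inner' (e u x : E n) : inner ℝ (sg e u) x = (inner ℝ u (sg e x) : ℝ) := by
  unfold sg
  rw [inner_sub_left, real_inner_smul_left, inner_sub_right, real_inner_smul_right,
    real_inner_comm u e]
  ring

theorem sg_sg' {e : E n} (he : ‖e‖ = 1) (x : E n) : sg e (sg e x) = x := by
  have h1 : (inner ℝ e (sg e x) : ℝ) = -inner ℝ e x := by
    unfold sg
    rw [inner_sub_right, real_inner_smul_right, real_inner_self_eq_norm_sq, he]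
    ring
  conv_lhs => rw [sg, h1]
  unfold sg
  module

/-- `sg` as a linear isometry equivalence. -/
noncomputable def sgL {e : E n} (he : ‖e‖ = 1) : E n ≃ₗᵢ[ℝ] E n where
  toFun := sg e
  map_add' x y := by
    unfold sg; rw [inner_add_right]; module
  map_smul' c x := by
    simp only [sg, inner_smul_right, RingHom.id_apply]; module
  invFun := sg e
  left_inv := sg_sg' he
  right_inv := sg_sg' he
  norm_map' x := by
    change ‖sg e x‖ = ‖x‖
    have h1 : ‖sg e x‖ ^ 2 = ‖x‖ ^ 2 := by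
      rw [← real_inner_self_eq_norm_sq, ← real_inner_self_eq_norm_sq, sg_inner', sg_sg' he]
    exact (sq_eq_sq₀ (norm_nonneg _) (norm_nonneg _)).1 h1

theorem cem : Pool.Agent.Helper73.MI.S_cem := by
  intro n K d hn hK hd hdv hS
  obtain ⟨C, lam, h1, h2⟩ := centre_sym hn hK hd hdv hS
  refine ⟨C, lam, h1, fun e he hsg => ?_, fun a b hab hi => ?_⟩
  · exact h2 (sgL he) (fun u x => sg_inner' e u x) hsg
  · exact h2 (iotL hab) (fun u x => (inner_iot u x).symm) hi

end Pool.Agent.Helper78.MI
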